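import Pool.Agent.Helper67_Nets.Ray

/-!
MODULE M9: from PartI and AbstractNet to the frozen statement S14193 (MP_f059bd_gt).
-/

set_option autoImplicit false
set_option linter.unusedSectionVars false

open Set Filter Topology Metric Bundle
open scoped ContDiff Manifold
open Pool.Agent.Helper4Nets

namespace Pool.Agent.Helper67Nets

/-- the edges -/
def Edg {n : ℕ} (k : Fin n → Fin n → ℕ) : Type :=
  Σ p : {p : Fin n × Fin n // p.1 < p.2}, Fin (3 * k p.1.1 p.1.2)

instance {n : ℕ} (k : Fin n → Fin n → ℕ) : Fintype (Edg k) := by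
  unfold Edg; infer_instance

theorem sum_edg {n : ℕ} (k : Fin n → Fin n → ℕ) {M : Type*} [AddCommMonoid M]
    (h : Fin n → Fin n → M) :
    ∑ f : Edg k, h f.1.1.1 f.1.1.2 =
      ∑ a, ∑ b, if a < b then (3 * k a b) • h a b else 0 := by
  have h1 : ∑ f : Edg k, h f.1.1.1 f.1.1.2 =
      ∑ p : {p : Fin n × Fin n // p.1 < p.2}, ∑ _j : Fin (3 * k p.1.1 p.1.2),
        h p.1.1 p.1.2 := by
    unfold Edg
    rw [Fintype.sum_sigma]
  rw [h1]
  simp only [Finset.sum_const, Finset.card_univ, Fintype.card_fin]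
  rw [← Fintype.sum_prod_type'
    (f := fun a b => if a < b then (3 * k a b) • h a b else 0)]
  rw [← Finset.sum_filter]
  symm
  apply Finset.sum_subtype
  intro p
  simp

section

variable {S : Type} [MetricSpace S] [ChartedSpace (EuclideanSpace ℝ (Fin 2)) S]
    [IsManifold 𝓘(ℝ, EuclideanSpace ℝ (Fin 2)) ∞ S]
    [RiemannianBundle (fun x : S => TangentSpace 𝓘(ℝ, EuclideanSpace ℝ (Fin 2)) x)]

theorem frozen_of (hP : PartI S) (hN : ∀ A : GoodAtlas S, AbstractNet A) :
    ∀ U : Set S, IsOpen U → U.Nonempty →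
  ∃ (n m : ℕ) (src tgt : Fin m → Fin n) (p : Fin n → S) (γ : Fin m → ℝ → S),
    (∀ e, ∃ c : ℝ, 0 < c ∧ ∀ t ∈ Set.Icc (0:ℝ) 1, ∃ δ > 0,
        ∀ s ∈ Set.Icc (0:ℝ) 1, ∀ s' ∈ Set.Icc (0:ℝ) 1,
          |s - t| < δ → |s' - t| < δ → dist (γ e s) (γ e s') = c * |s - s'|) ∧
    (∀ e, γ e 0 = p (src e) ∧ γ e 1 = p (tgt e)) ∧
    (∀ v, 3 ≤ (Finset.univ.filter (fun e => src e = v)).card
              + (Finset.univ.filter (fun e => tgt e = v)).card) ∧
    (∀ v,
      (∑ e ∈ Finset.univ.filter (fun e => src e = v),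
        ‖@id (TangentSpace 𝓘(ℝ, EuclideanSpace ℝ (Fin 2)) (p v))
            (mfderivWithin 𝓘(ℝ, ℝ) 𝓘(ℝ, EuclideanSpace ℝ (Fin 2)) (γ e) (Set.Icc 0 1) 0 (1 : ℝ))‖⁻¹
          • @id (TangentSpace 𝓘(ℝ, EuclideanSpace ℝ (Fin 2)) (p v))
            (mfderivWithin 𝓘(ℝ, ℝ) 𝓘(ℝ, EuclideanSpace ℝ (Fin 2)) (γ e) (Set.Icc 0 1) 0 (1 : ℝ)))
      - (∑ e ∈ Finset.univ.filter (fun e => tgt e = v),
        ‖@id (TangentSpace 𝓘(ℝ, EuclideanSpace ℝ (Fin 2)) (p v))
            (mfderivWithin 𝓘(ℝ, ℝ) 𝓘(ℝ, EuclideanSpace ℝ (Fin 2)) (γ e) (Set.Icc 0 1) 1 (1 : ℝ))‖⁻¹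
          • @id (TangentSpace 𝓘(ℝ, EuclideanSpace ℝ (Fin 2)) (p v))
            (mfderivWithin 𝓘(ℝ, ℝ) 𝓘(ℝ, EuclideanSpace ℝ (Fin 2)) (γ e) (Set.Icc 0 1) 1 (1 : ℝ)))
      = 0) ∧
    (¬ ∃ (k : ℕ) (c : Fin k → ℝ → S) (T : Fin k → ℝ),
        (∀ i, 0 < T i ∧ Function.Periodic (c i) (T i) ∧ Set.InjOn (c i) (Set.Ico 0 (T i)) ∧
          ∃ a : ℝ, 0 < a ∧ ∀ t : ℝ, ∃ δ > 0, ∀ s s' : ℝ,
            |s - t| < δ → |s' - t| < δ → dist (c i s) (c i s') = a * |s - s'|) ∧
        (Pairwise fun i j => Disjoint (Set.range (c i)) (Set.range (c j))) ∧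
        (⋃ e, γ e '' Set.Icc (0:ℝ) 1) = ⋃ i, Set.range (c i)) ∧
    ((⋃ e, γ e '' Set.Icc (0:ℝ) 1) ∩ U).Nonempty := by
  intro U hU hUne
  obtain ⟨A, hA, hgeo⟩ := hP
  obtain ⟨n, x, i, k, hinj, hsrc, hsymm, hk, hval, hbal, a, haU, b, hb, hbd⟩ := hN A U hU hUne
  have hex : ∀ a b, ∃ γ : ℝ → S, 0 < k a b → Geo A (x a) (x b) γ := by
    intro a b
    by_cases h : 0 < k a b
    · obtain ⟨hne, hr⟩ := hk a b h
      obtain ⟨γ, hγ⟩ := hgeo (x a) (x b) (fun e => hne (hinj e)) hr
      exact ⟨γ, fun _ => hγ⟩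
    · exact ⟨fun _ => x a, fun h' => absurd h' h⟩
  choose G hG using hex
  have hkne : ∀ {a b}, 0 < k a b → x a ≠ x b := fun h e => (hk _ _ h).1 (hinj e)
  let eq : Edg k ≃ Fin (Fintype.card (Edg k)) := Fintype.equivFin (Edg k)
  have hkpos : ∀ f : Edg k, 0 < k f.1.1.1 f.1.1.2 := by
    intro f
    have := f.2.pos
    omega
  -- sums over edges
  have hsum : ∀ {M : Type} [AddCommMonoid M] (h : Fin n → Fin n → M),
      ∑ f : Fin (Fintype.card (Edg k)), h (eq.symm f).1.1.1 (eq.symm f).1.1.2 =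
      ∑ a, ∑ b, if a < b then (3 * k a b) • h a b else 0 := by
    intro M _ h
    rw [← sum_edg k h]
    exact Equiv.sum_comp eq.symm (fun f : Edg k => h f.1.1.1 f.1.1.2)
  -- the image
  have hX : ∀ a b, 0 < k a b → a < b → ∀ s ∈ Icc (0 : ℝ) 1,
      G a b s ∈ ⋃ f : Fin (Fintype.card (Edg k)),
        G (eq.symm f).1.1.1 (eq.symm f).1.1.2 '' Icc (0 : ℝ) 1 := by
    intro a b hab hlt s hs
    obtain ⟨f0, hf1, hf2⟩ : ∃ f0 : Edg k, f0.1.1.1 = a ∧ f0.1.1.2 = b :=
      ⟨(⟨⟨(a, b), hlt⟩, ⟨0, by show 0 < 3 * k a b; omega⟩⟩ :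
        Σ p : {p : Fin n × Fin n // p.1 < p.2}, Fin (3 * k p.1.1 p.1.2)), rfl, rfl⟩
    rw [mem_iUnion]
    refine ⟨eq f0, ?_⟩
    rw [Equiv.symm_apply_apply, hf1, hf2]
    exact ⟨s, hs, rfl⟩
  have hray : ∀ b, 0 < k a b → ∃ d g V,
      Ray A (i a) (x a) d g V (fun v => fderiv ℝ (A.ell (i a) (i b))
        (A.c (i a) (x a), A.c (i b) (x b)) (v, 0)) ∧
      ∀ s ∈ Icc (0 : ℝ) d, g s ∈ ⋃ f : Fin (Fintype.card (Edg k)),
        G (eq.symm f).1.1.1 (eq.symm f).1.1.2 '' Icc (0 : ℝ) 1 := by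
    intro b hab
    have hne := (hk a b hab).1
    rcases lt_or_gt_of_ne hne with h | h
    · refine ⟨_, _, _, (hG a b hab).ray0 hA (hkne hab) (hk _ _ hab).2 (i a) (i b)
        (hsrc a) (hsrc b), ?_⟩
      intro s hs
      apply hX a b hab h
      have hd := dist_pos.2 (hkne hab)
      exact ⟨div_nonneg hs.1 hd.le, (div_le_one hd).2 hs.2⟩
    · have hba : 0 < k b a := by rwa [hsymm b a]
      refine ⟨_, _, _, (hG b a hba).ray1 hA (hkne hba) (hk _ _ hba).2 (i b) (i a)
        (hsrc b) (hsrc a), ?_⟩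
      intro s hs
      apply hX b a hba h
      have hd := dist_pos.2 (hkne hba)
      have h1 := (div_le_one hd).2 hs.2
      have h2 := div_nonneg hs.1 hd.le
      exact ⟨by linarith, by linarith⟩
  have haX : x a ∈ ⋃ f : Fin (Fintype.card (Edg k)),
        G (eq.symm f).1.1.1 (eq.symm f).1.1.2 '' Icc (0 : ℝ) 1 := by
    obtain ⟨d0, g0, V0, r0, x0⟩ := hray (b 0) (hb 0)
    have h0 := r0.2.1 0 ⟨le_rfl, r0.1.le⟩
    rw [dist_eq_zero] at h0
    rw [h0]
    exact x0 0 ⟨le_rfl, r0.1.le⟩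
  refine ⟨n, Fintype.card (Edg k), fun f => (eq.symm f).1.1.1, fun f => (eq.symm f).1.1.2, x,
    fun f => G (eq.symm f).1.1.1 (eq.symm f).1.1.2, ?_, ?_, ?_, ?_, ?_, ?_⟩
  · -- constant speed
    intro f
    have hf := hkpos (eq.symm f)
    have hg := hG _ _ hf
    refine ⟨dist (x (eq.symm f).1.1.1) (x (eq.symm f).1.1.2), dist_pos.2 (hkne hf), ?_⟩
    intro t _
    exact ⟨1, one_pos, fun s hs s' hs' _ _ => hg.2.2.1 s hs s' hs'⟩
  · intro f
    have hg := hG _ _ (hkpos (eq.symm f))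
    exact ⟨hg.1, hg.2.1⟩
  · -- valence
    intro v
    obtain ⟨w, hw⟩ := hval v
    have hvw : v ≠ w := (hk v w hw).1
    have c1 : (Finset.univ.filter (fun f => (eq.symm f).1.1.1 = v)).card =
        ∑ b, if v < b then 3 * k v b else 0 := by
      rw [Finset.card_filter]
      rw [hsum (fun a _ => if a = v then 1 else 0)]
      rw [Finset.sum_eq_single v]
      · simp
      · intro a _ ha
        simp [ha]
      · simp
    have c2 : (Finset.univ.filter (fun f => (eq.symm f).1.1.2 = v)).card =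
        ∑ a, if a < v then 3 * k a v else 0 := by
      rw [Finset.card_filter]
      rw [hsum (fun _ b => if b = v then 1 else 0)]
      apply Finset.sum_congr rfl
      intro a _
      rw [Finset.sum_eq_single v]
      · simp
      · intro a _ ha
        simp [ha]
      · simp
    rw [c1, c2]
    rcases lt_or_gt_of_ne hvw with h | h
    · have : 3 * k v w ≤ ∑ b, if v < b then 3 * k v b else 0 := by
        calc 3 * k v w = (if v < w then 3 * k v w else 0) := by rw [if_pos h]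
          _ ≤ _ := Finset.single_le_sum (f := fun b => if v < b then 3 * k v b else 0)
            (fun _ _ => Nat.zero_le _) (Finset.mem_univ w)
      omega
    · have : 3 * k w v ≤ ∑ a, if a < v then 3 * k a v else 0 := by
        calc 3 * k w v = (if w < v then 3 * k w v else 0) := by rw [if_pos h]
          _ ≤ _ := Finset.single_le_sum (f := fun a => if a < v then 3 * k a v else 0)
            (fun _ _ => Nat.zero_le _) (Finset.mem_univ w)
      rw [hsymm] at this
      omega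
  · -- balance
    intro v
    change (∑ f ∈ Finset.univ.filter (fun f => (eq.symm f).1.1.1 = v),
        ‖uvec (G (eq.symm f).1.1.1 (eq.symm f).1.1.2) 0 (x v)‖⁻¹ •
          uvec (G (eq.symm f).1.1.1 (eq.symm f).1.1.2) 0 (x v)) -
      (∑ f ∈ Finset.univ.filter (fun f => (eq.symm f).1.1.2 = v),
        ‖uvec (G (eq.symm f).1.1.1 (eq.symm f).1.1.2) 1 (x v)‖⁻¹ •
          uvec (G (eq.symm f).1.1.1 (eq.symm f).1.1.2) 1 (x v)) = 0
    rw [← inner_self_eq_zero (𝕜 := ℝ)]
    have key : ∀ w : TangentSpace 𝓘(ℝ, EuclideanSpace ℝ (Fin 2)) (x v),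
        inner ℝ ((∑ f ∈ Finset.univ.filter (fun f => (eq.symm f).1.1.1 = v),
        ‖uvec (G (eq.symm f).1.1.1 (eq.symm f).1.1.2) 0 (x v)‖⁻¹ •
          uvec (G (eq.symm f).1.1.1 (eq.symm f).1.1.2) 0 (x v)) -
      (∑ f ∈ Finset.univ.filter (fun f => (eq.symm f).1.1.2 = v),
        ‖uvec (G (eq.symm f).1.1.1 (eq.symm f).1.1.2) 1 (x v)‖⁻¹ •
          uvec (G (eq.symm f).1.1.1 (eq.symm f).1.1.2) 1 (x v))) w = 0 := by
      intro w
      set Φ : Fin n → ℝ := fun b =>
        fderiv ℝ (A.ell (i v) (i b)) (A.c (i v) (x v), A.c (i b) (x b)) (dc A (i v) (x v) w, 0)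
        with hΦ
      rw [inner_sub_left, sum_inner, sum_inner]
      have s1 : ∑ f ∈ Finset.univ.filter (fun f => (eq.symm f).1.1.1 = v),
          inner ℝ (‖uvec (G (eq.symm f).1.1.1 (eq.symm f).1.1.2) 0 (x v)‖⁻¹ •
          uvec (G (eq.symm f).1.1.1 (eq.symm f).1.1.2) 0 (x v)) w =
          ∑ b, if v < b then (3 * k v b) • (- Φ b) else 0 := by
        rw [Finset.sum_filter]
        have : ∀ f : Fin (Fintype.card (Edg k)), (if (eq.symm f).1.1.1 = v then
            inner ℝ (‖uvec (G (eq.symm f).1.1.1 (eq.symm f).1.1.2) 0 (x v)‖⁻¹ •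
            uvec (G (eq.symm f).1.1.1 (eq.symm f).1.1.2) 0 (x v)) w else 0) =
            if (eq.symm f).1.1.1 = v then - Φ (eq.symm f).1.1.2 else 0 := by
          intro f
          split_ifs with h
          · have hf := hkpos (eq.symm f)
            generalize (eq.symm f).1.1.1 = a' at *
            generalize (eq.symm f).1.1.2 = b' at *
            subst h
            exact (hG _ _ hf).unit0 (hkne hf) (hk _ _ hf).2 (i _) (i _) (hsrc _) (hsrc _) w
          · rfl
        rw [Finset.sum_congr rfl (fun f _ => this f)]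
        rw [hsum (fun a b => if a = v then - Φ b else 0)]
        rw [Finset.sum_eq_single v]
        · apply Finset.sum_congr rfl
          intro b _
          simp
        · intro a _ ha
          simp [ha]
        · simp
      have s2 : ∑ f ∈ Finset.univ.filter (fun f => (eq.symm f).1.1.2 = v),
          inner ℝ (‖uvec (G (eq.symm f).1.1.1 (eq.symm f).1.1.2) 1 (x v)‖⁻¹ •
          uvec (G (eq.symm f).1.1.1 (eq.symm f).1.1.2) 1 (x v)) w =
          ∑ a, if a < v then (3 * k a v) • (Φ a) else 0 := by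
        rw [Finset.sum_filter]
        have : ∀ f : Fin (Fintype.card (Edg k)), (if (eq.symm f).1.1.2 = v then
            inner ℝ (‖uvec (G (eq.symm f).1.1.1 (eq.symm f).1.1.2) 1 (x v)‖⁻¹ •
            uvec (G (eq.symm f).1.1.1 (eq.symm f).1.1.2) 1 (x v)) w else 0) =
            if (eq.symm f).1.1.2 = v then Φ (eq.symm f).1.1.1 else 0 := by
          intro f
          split_ifs with h
          · have hf := hkpos (eq.symm f)
            generalize (eq.symm f).1.1.1 = a' at *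
            generalize (eq.symm f).1.1.2 = b' at *
            subst h
            exact (hG _ _ hf).unit1 (hkne hf) (hk _ _ hf).2 (i _) (i _) (hsrc _) (hsrc _) w
          · rfl
        rw [Finset.sum_congr rfl (fun f _ => this f)]
        rw [hsum (fun a b => if b = v then Φ a else 0)]
        apply Finset.sum_congr rfl
        intro a _
        rw [Finset.sum_eq_single v]
        · simp
        · intro b _ hb
          simp [hb]
        · simp
      rw [s1, s2, ← Finset.sum_sub_distrib]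
      have hb0 := hbal v (dc A (i v) (x v) w)
      have hkk : k v v = 0 := by
        by_contra h
        exact (hk v v (Nat.pos_of_ne_zero h)).1 rfl
      have : ∀ b, ((if v < b then (3 * k v b) • (- Φ b) else 0) -
          if b < v then (3 * k b v) • (Φ b) else 0) = -3 * ((k v b : ℝ) * Φ b) := by
        intro b
        rcases lt_trichotomy v b with h | h | h
        · rw [if_pos h, if_neg (not_lt.2 h.le)]
          simp only [nsmul_eq_mul]
          push_cast
          ring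
        · subst h
          simp [hkk]
        · rw [if_neg (not_lt.2 h.le), if_pos h, hsymm b v]
          simp only [nsmul_eq_mul]
          push_cast
          ring
      rw [Finset.sum_congr rfl (fun b _ => this b), ← Finset.mul_sum]
      rw [hb0, mul_zero]
    exact key _
  · -- nontriviality
    obtain ⟨d0, g0, V0, r0, x0⟩ := hray (b 0) (hb 0)
    obtain ⟨d1, g1, V1, r1, x1⟩ := hray (b 1) (hb 1)
    obtain ⟨d2, g2, V2, r2, x2⟩ := hray (b 2) (hb 2)
    have e01 := Ray.ne hA (hsrc a) r0 r1 (hbd (show (0 : Fin 3) ≠ 1 by decide))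
    have e02 := Ray.ne hA (hsrc a) r0 r2 (hbd (show (0 : Fin 3) ≠ 2 by decide))
    have e12 := Ray.ne hA (hsrc a) r1 r2 (hbd (show (1 : Fin 3) ≠ 2 by decide))
    refine not_union (P := x a) (min d0 (min d1 d2))
      (lt_min r0.1 (lt_min r1.1 r2.1)) ![g0, g1, g2] ?_ haX ?_
    · intro m s hs hs'
      rw [lt_min_iff, lt_min_iff] at hs'
      fin_cases m
      · exact ⟨x0 s ⟨hs.le, hs'.1.le⟩, r0.2.1 s ⟨hs.le, hs'.1.le⟩⟩
      · exact ⟨x1 s ⟨hs.le, hs'.2.1.le⟩, r1.2.1 s ⟨hs.le, hs'.2.1.le⟩⟩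
      · exact ⟨x2 s ⟨hs.le, hs'.2.2.le⟩, r2.2.1 s ⟨hs.le, hs'.2.2.le⟩⟩
    · intro m m' hmm
      fin_cases m <;> fin_cases m'
      · exact absurd rfl hmm
      · exact e01
      · exact e02
      · exact e01.mono fun s hs => hs.symm
      · exact absurd rfl hmm
      · exact e12
      · exact e02.mono fun s hs => hs.symm
      · exact e12.mono fun s hs => hs.symm
      · exact absurd rfl hmm
  · exact ⟨x a, haX, haU⟩

end

end Pool.Agent.Helper67Nets
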