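import Mathlib

/-!
A union of finitely many disjoint simple closed locally isometric curves has, near each of its
points, at most two points at a given small distance.
-/

set_option autoImplicit false

open Set Filter Topology Metric

namespace Pool.Agent.Helper67Nets

variable {S : Type} [MetricSpace S]

/-- Simple closed curve, locally isometric up to a constant factor. -/
def Simple (c : ℝ → S) (T : ℝ) : Prop :=
  0 < T ∧ Function.Periodic c T ∧ Set.InjOn c (Set.Ico 0 T) ∧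
    ∃ a : ℝ, 0 < a ∧ ∀ t : ℝ, ∃ δ > 0, ∀ s s' : ℝ,
      |s - t| < δ → |s' - t| < δ → dist (c s) (c s') = a * |s - s'|

theorem Simple.continuous {c : ℝ → S} {T : ℝ} (h : Simple c T) : Continuous c := by
  obtain ⟨_, _, _, a, ha, hloc⟩ := h
  rw [continuous_iff_continuousAt]
  intro t
  obtain ⟨δ, hδ, hd⟩ := hloc t
  rw [Metric.continuousAt_iff]
  intro ε hε
  refine ⟨min δ (ε / a), lt_min hδ (div_pos hε ha), ?_⟩
  intro s hs
  rw [Real.dist_eq] at hs
  have h1 := hd s t (lt_of_lt_of_le hs (min_le_left _ _)) (by simpa using hδ)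
  rw [h1]
  have h2 : |s - t| < ε / a := lt_of_lt_of_le hs (min_le_right _ _)
  calc a * |s - t| < a * (ε / a) := by gcongr
    _ = ε := by field_simp

theorem Simple.range_eq {c : ℝ → S} {T : ℝ} (h : Simple c T) (t0 : ℝ) :
    range c = c '' Icc (t0 - T / 2) (t0 + T / 2) := by
  obtain ⟨hT, hp, _, _⟩ := h
  apply Subset.antisymm
  · have := hp.image_Icc hT (t0 - T / 2)
    rw [show t0 - T / 2 + T = t0 + T / 2 by ring] at this
    rw [this]
  · exact image_subset_range _ _

theorem Simple.isCompact_range {c : ℝ → S} {T : ℝ} (h : Simple c T) : IsCompact (range c) := by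
  rw [h.range_eq 0]
  exact isCompact_Icc.image h.continuous

theorem Simple.eq_of {c : ℝ → S} {T : ℝ} (h : Simple c T) {t t0 : ℝ}
    (ht : t ∈ Icc (t0 - T / 2) (t0 + T / 2)) (he : c t = c t0) : t = t0 := by
  obtain ⟨hT, hp, hinj, _⟩ := h
  -- reduce both modulo `T`
  have h1 := toIcoMod_mem_Ico hT 0 t
  have h2 := toIcoMod_mem_Ico hT 0 t0
  rw [zero_add] at h1 h2
  have e1 : c (toIcoMod hT 0 t) = c t := by
    have : toIcoMod hT 0 t = t - (toIcoDiv hT 0 t : ℤ) • T := rfl
    rw [this]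
    exact hp.sub_zsmul_eq _
  have e2 : c (toIcoMod hT 0 t0) = c t0 := by
    have : toIcoMod hT 0 t0 = t0 - (toIcoDiv hT 0 t0 : ℤ) • T := rfl
    rw [this]
    exact hp.sub_zsmul_eq _
  have e3 : toIcoMod hT 0 t = toIcoMod hT 0 t0 := hinj h1 h2 (by rw [e1, e2, he])
  have e4 : t - t0 = ((toIcoDiv hT 0 t - toIcoDiv hT 0 t0 : ℤ) : ℝ) * T := by
    have a1 := self_sub_toIcoMod hT 0 t
    have a2 := self_sub_toIcoMod hT 0 t0
    rw [zsmul_eq_mul] at a1 a2
    push_cast
    rw [e3] at a1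
    linarith
  set k : ℤ := toIcoDiv hT 0 t - toIcoDiv hT 0 t0 with hk
  have h5 : |t - t0| ≤ T / 2 := by
    rw [abs_le]; constructor <;> linarith [ht.1, ht.2]
  have h6 : k = 0 := by
    by_contra hne
    have : (1 : ℝ) ≤ |(k : ℝ)| := by
      rw [← Int.cast_abs]
      exact_mod_cast Int.one_le_abs hne
    rw [e4, abs_mul, abs_of_pos hT] at h5
    nlinarith
  rw [h6] at e4
  simp at e4
  linarith

/-- Near a point `P` of a finite disjoint union of simple closed curves at most two points are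
at distance `s`. -/
theorem two_points {k : ℕ} {c : Fin k → ℝ → S} {T : Fin k → ℝ}
    (hc : ∀ i, Simple (c i) (T i))
    (hd : Pairwise fun i j => Disjoint (Set.range (c i)) (Set.range (c j)))
    {P : S} (hP : P ∈ ⋃ i, Set.range (c i)) :
    ∃ ρ > 0, ∃ A B : ℝ → S, ∀ Q ∈ ⋃ i, Set.range (c i), dist P Q < ρ →
      Q = A (dist P Q) ∨ Q = B (dist P Q) := by
  rw [mem_iUnion] at hP
  obtain ⟨i0, t0, rfl⟩ := hP
  obtain ⟨hT, hp, hinj, a, ha, hloc⟩ := hc i0
  obtain ⟨δ, hδ, hdist⟩ := hloc t0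
  set K : Set S := (⋃ j ∈ {j : Fin k | j ≠ i0}, range (c j)) ∪
    c i0 '' (Icc (t0 - T i0 / 2) (t0 + T i0 / 2) \ ball t0 δ) with hK
  have hKc : IsClosed K := by
    apply IsClosed.union
    · apply Set.Finite.isClosed_biUnion (Set.toFinite _)
      intro j _
      exact (hc j).isCompact_range.isClosed
    · apply IsCompact.isClosed
      exact (isCompact_Icc.diff isOpen_ball).image (hc i0).continuous
  have hPK : c i0 t0 ∉ K := by
    rintro (h | ⟨t, ⟨ht1, ht2⟩, h⟩)
    · simp only [mem_ofPred_eq, mem_iUnion] at h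
      obtain ⟨j, hj, hh⟩ := h
      exact Set.disjoint_left.1 (hd hj) hh ⟨t0, rfl⟩
    · have := (hc i0).eq_of ht1 h
      subst this
      exact ht2 (mem_ball_self hδ)
  obtain ⟨ρ, hρ, hball⟩ := Metric.isOpen_iff.1 hKc.isOpen_compl _ hPK
  refine ⟨ρ, hρ, fun r => c i0 (t0 + r / a), fun r => c i0 (t0 - r / a), ?_⟩
  intro Q hQ hlt
  have hQK : Q ∉ K := hball (by rwa [mem_ball, dist_comm])
  rw [mem_iUnion] at hQ
  obtain ⟨j, hj⟩ := hQ
  have hji : j = i0 := by
    by_contra hne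
    apply hQK
    left
    simp only [mem_ofPred_eq, mem_iUnion]
    exact ⟨j, hne, hj⟩
  subst hji
  rw [(hc j).range_eq t0] at hj
  obtain ⟨t, ht, rfl⟩ := hj
  have htb : t ∈ ball t0 δ := by
    by_contra hne
    exact hQK (Or.inr ⟨t, ⟨ht, hne⟩, rfl⟩)
  rw [mem_ball, Real.dist_eq] at htb
  have h1 := hdist t0 t (by simpa using hδ) htb
  rw [h1]
  have h2 : a * |t0 - t| / a = |t0 - t| := by field_simp
  show c j t = c j (t0 + a * |t0 - t| / a) ∨ c j t = c j (t0 - a * |t0 - t| / a)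
  rw [h2]
  rcases le_total t0 t with h | h
  · left
    rw [abs_of_nonpos (by linarith)]
    congr 1; ring
  · right
    rw [abs_of_nonneg (by linarith)]
    congr 1; ring

/-- Three curves issuing from `P`, parametrised by distance to `P`, in a set `X` which is a
disjoint union of simple closed curves: two of them meet at arbitrarily small distances. -/
theorem not_union {X : Set S} {P : S} (r0 : ℝ) (hr0 : 0 < r0) (g : Fin 3 → ℝ → S)
    (hg : ∀ m, ∀ s, 0 < s → s < r0 → g m s ∈ X ∧ dist P (g m s) = s) (hPX : P ∈ X)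
    (hne : ∀ m m', m ≠ m' → ∀ᶠ s in 𝓝[>] (0 : ℝ), g m s ≠ g m' s) :
    ¬ ∃ (k : ℕ) (c : Fin k → ℝ → S) (T : Fin k → ℝ),
        (∀ i, 0 < T i ∧ Function.Periodic (c i) (T i) ∧ Set.InjOn (c i) (Set.Ico 0 (T i)) ∧
          ∃ a : ℝ, 0 < a ∧ ∀ t : ℝ, ∃ δ > 0, ∀ s s' : ℝ,
            |s - t| < δ → |s' - t| < δ → dist (c i s) (c i s') = a * |s - s'|) ∧
        (Pairwise fun i j => Disjoint (Set.range (c i)) (Set.range (c j))) ∧
        X = ⋃ i, Set.range (c i) := by
  rintro ⟨k, c, T, hc, hd, hX⟩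
  obtain ⟨ρ, hρ, A, B, hAB⟩ := two_points (c := c) (T := T) hc hd (P := P) (hX ▸ hPX)
  have h1 : ∀ᶠ s in 𝓝[>] (0 : ℝ), 0 < s := eventually_mem_nhdsWithin
  have h2 : ∀ᶠ s in 𝓝[>] (0 : ℝ), s < min ρ r0 :=
    (eventually_lt_nhds (lt_min hρ hr0)).filter_mono nhdsWithin_le_nhds
  have h3 : ∀ᶠ s in 𝓝[>] (0 : ℝ), ∀ m m' : Fin 3, m ≠ m' → g m s ≠ g m' s := by
    rw [eventually_all]; intro m
    rw [eventually_all]; intro m'
    by_cases h : m = m'
    · exact Eventually.of_forall fun s hh => absurd h hh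
    · filter_upwards [hne m m' h] with s hs _ using hs
  obtain ⟨s, h1, h2, h3⟩ := (h1.and (h2.and h3)).exists
  have h4 : ∀ m, g m s = A s ∨ g m s = B s := by
    intro m
    have := hg m s h1 (lt_of_lt_of_le h2 (min_le_right _ _))
    have h5 := hAB (g m s) (hX ▸ this.1) (by rw [this.2]; exact lt_of_lt_of_le h2 (min_le_left _ _))
    rwa [this.2] at h5
  have a01 := h3 0 1 (by decide)
  have a02 := h3 0 2 (by decide)
  have a12 := h3 1 2 (by decide)
  rcases h4 0 with h | h <;> rcases h4 1 with h' | h' <;> rcases h4 2 with h'' | h''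
  · exact a01 (h.trans h'.symm)
  · exact a01 (h.trans h'.symm)
  · exact a02 (h.trans h''.symm)
  · exact a12 (h'.trans h''.symm)
  · exact a12 (h'.trans h''.symm)
  · exact a02 (h.trans h''.symm)
  · exact a01 (h.trans h'.symm)
  · exact a01 (h.trans h'.symm)

end Pool.Agent.Helper67Nets
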