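import Pool.Agent.Helper4_Nets.DefsManifold
import Pool.Agent.Helper67_Nets.Curve

/-!
First variation at the end points of the edges (MP_f059bd_gt).
-/

set_option autoImplicit false
set_option linter.unusedSectionVars false

open Set Filter Topology Metric Bundle
open scoped ContDiff Manifold
open Pool.Agent.Helper4Nets

namespace Pool.Agent.Helper67Nets

section

variable {S : Type} [MetricSpace S] [ChartedSpace (EuclideanSpace ℝ (Fin 2)) S]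
    [IsManifold 𝓘(ℝ, EuclideanSpace ℝ (Fin 2)) ∞ S]
    [RiemannianBundle (fun x : S => TangentSpace 𝓘(ℝ, EuclideanSpace ℝ (Fin 2)) x)]

/-- The data of `PartI` for one geodesic. -/
def Geo (A : GoodAtlas S) (x y : S) (γ : ℝ → S) : Prop :=
  γ 0 = x ∧ γ 1 = y ∧
      (∀ s ∈ Icc (0 : ℝ) 1, ∀ t ∈ Icc (0 : ℝ) 1, dist (γ s) (γ t) = dist x y * |s - t|) ∧
      MDifferentiableWithinAt 𝓘(ℝ, ℝ) 𝓘(ℝ, EuclideanSpace ℝ (Fin 2)) γ (Icc 0 1) 0 ∧
      MDifferentiableWithinAt 𝓘(ℝ, ℝ) 𝓘(ℝ, EuclideanSpace ℝ (Fin 2)) γ (Icc 0 1) 1 ∧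
      ‖vel γ 0‖ = dist x y ∧ ‖vel γ 1‖ = dist x y ∧
      (∀ i, x ∈ (A.c i).source → ∀ w : TangentSpace 𝓘(ℝ, EuclideanSpace ℝ (Fin 2)) (γ 0),
        fderiv ℝ (fun q => dist ((A.c i).symm q) y) (A.c i x)
          (mfderiv 𝓘(ℝ, EuclideanSpace ℝ (Fin 2)) 𝓘(ℝ, E2) (A.c i) (γ 0) w : E2) * dist x y =
        - inner ℝ (vel γ 0) w) ∧
      (∀ i, y ∈ (A.c i).source → ∀ w : TangentSpace 𝓘(ℝ, EuclideanSpace ℝ (Fin 2)) (γ 1),
        fderiv ℝ (fun q => dist x ((A.c i).symm q)) (A.c i y)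
          (mfderiv 𝓘(ℝ, EuclideanSpace ℝ (Fin 2)) 𝓘(ℝ, E2) (A.c i) (γ 1) w : E2) * dist x y =
        inner ℝ (vel γ 1) w)

/-- velocity at `t`, seen as a tangent vector at `P` -/
noncomputable def uvec (γ : ℝ → S) (t : ℝ) (P : S) :
    TangentSpace 𝓘(ℝ, EuclideanSpace ℝ (Fin 2)) P :=
  @id (TangentSpace 𝓘(ℝ, EuclideanSpace ℝ (Fin 2)) P)
    (mfderivWithin 𝓘(ℝ, ℝ) 𝓘(ℝ, EuclideanSpace ℝ (Fin 2)) γ (Set.Icc 0 1) t (1 : ℝ))

/-- derivative of the chart `i` at `P` -/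
noncomputable def dc (A : GoodAtlas S) (i : A.ι) (P : S)
    (w : TangentSpace 𝓘(ℝ, EuclideanSpace ℝ (Fin 2)) P) : E2 :=
  (mfderiv 𝓘(ℝ, EuclideanSpace ℝ (Fin 2)) 𝓘(ℝ, E2) (A.c i) P w : E2)

theorem Geo.norm0 {A : GoodAtlas S} {x y : S} {γ : ℝ → S} (h : Geo A x y γ) :
    ‖uvec γ 0 x‖ = dist x y := by
  obtain ⟨rfl, h1, hd, m0, m1, n0, n1, v0, v1⟩ := h
  exact n0

theorem Geo.norm1 {A : GoodAtlas S} {x y : S} {γ : ℝ → S} (h : Geo A x y γ) :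
    ‖uvec γ 1 y‖ = dist x y := by
  obtain ⟨h0, rfl, hd, m0, m1, n0, n1, v0, v1⟩ := h
  exact n1

theorem Geo.var0 {A : GoodAtlas S} {x y : S} {γ : ℝ → S} (h : Geo A x y γ) (i : A.ι)
    (hx : x ∈ (A.c i).source) (w : TangentSpace 𝓘(ℝ, EuclideanSpace ℝ (Fin 2)) x) :
    fderiv ℝ (fun q => dist ((A.c i).symm q) y) (A.c i x) (dc A i x w) * dist x y =
      - inner ℝ (uvec γ 0 x) w := by
  obtain ⟨rfl, h1, hd, m0, m1, n0, n1, v0, v1⟩ := h
  exact v0 i hx w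

theorem Geo.var1 {A : GoodAtlas S} {x y : S} {γ : ℝ → S} (h : Geo A x y γ) (i : A.ι)
    (hy : y ∈ (A.c i).source) (w : TangentSpace 𝓘(ℝ, EuclideanSpace ℝ (Fin 2)) y) :
    fderiv ℝ (fun q => dist x ((A.c i).symm q)) (A.c i y) (dc A i y w) * dist x y =
      inner ℝ (uvec γ 1 y) w := by
  obtain ⟨h0, rfl, hd, m0, m1, n0, n1, v0, v1⟩ := h
  exact v1 i hy w

omit [ChartedSpace (EuclideanSpace ℝ (Fin 2)) S]
    [IsManifold 𝓘(ℝ, EuclideanSpace ℝ (Fin 2)) ∞ S]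
    [RiemannianBundle (fun x : S => TangentSpace 𝓘(ℝ, EuclideanSpace ℝ (Fin 2)) x)] in
theorem fderiv_ell (A : GoodAtlas S) (i j : A.ι) {x y : S} (hx : x ∈ (A.c i).source)
    (hy : y ∈ (A.c j).source) (hne : x ≠ y) (hr : dist x y < A.r) (v : E2) :
    fderiv ℝ (A.ell i j) (A.c i x, A.c j y) (v, 0) =
      fderiv ℝ (fun q => dist ((A.c i).symm q) y) (A.c i x) v := by
  have hx' := (A.c i).left_inv hx
  have hy' := (A.c j).left_inv hy
  have hsm := A.smooth i j (A.c i x) ((A.c i).map_source hx) (A.c j y) ((A.c j).map_source hy)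
    (by rw [hx', hy']; exact dist_pos.2 hne) (by rw [hx', hy']; exact hr)
  have hd : DifferentiableAt ℝ (A.ell i j) (A.c i x, A.c j y) :=
    hsm.differentiableAt (by norm_num)
  have h1 : HasFDerivAt (fun q : E2 => (q, A.c j y)) (ContinuousLinearMap.inl ℝ E2 E2)
      (A.c i x) := hasFDerivAt_prodMk_left _ _
  have h2 : HasFDerivAt (A.ell i j ∘ fun q : E2 => (q, A.c j y)) _ (A.c i x) :=
    HasFDerivAt.comp (A.c i x) hd.hasFDerivAt h1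
  have h3 : (A.ell i j ∘ fun q : E2 => (q, A.c j y)) = fun q => dist ((A.c i).symm q) y := by
    funext q
    simp only [Function.comp, GoodAtlas.ell, hy']
  rw [h3] at h2
  rw [h2.fderiv]
  simp

/-- Value of the unit initial velocity. -/
theorem Geo.unit0 {A : GoodAtlas S} {x y : S} {γ : ℝ → S} (h : Geo A x y γ) (hne : x ≠ y)
    (hr : dist x y < A.r) (i j : A.ι) (hx : x ∈ (A.c i).source) (hy : y ∈ (A.c j).source)
    (w : TangentSpace 𝓘(ℝ, EuclideanSpace ℝ (Fin 2)) x) :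
    inner ℝ (‖uvec γ 0 x‖⁻¹ • uvec γ 0 x) w =
      - fderiv ℝ (A.ell i j) (A.c i x, A.c j y) (dc A i x w, 0) := by
  rw [fderiv_ell A i j hx hy hne hr, h.norm0, real_inner_smul_left]
  have h1 := h.var0 i hx w
  have h2 : dist x y ≠ 0 := (dist_pos.2 hne).ne'
  have h3 : inner ℝ (uvec γ 0 x) w = - (fderiv ℝ (fun q => dist ((A.c i).symm q) y) (A.c i x)
    (dc A i x w) * dist x y) := by rw [h1]; ring
  rw [h3]
  field_simp

/-- Value of the unit final velocity. -/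
theorem Geo.unit1 {A : GoodAtlas S} {x y : S} {γ : ℝ → S} (h : Geo A x y γ) (hne : x ≠ y)
    (hr : dist x y < A.r) (i j : A.ι) (hx : x ∈ (A.c i).source) (hy : y ∈ (A.c j).source)
    (w : TangentSpace 𝓘(ℝ, EuclideanSpace ℝ (Fin 2)) y) :
    inner ℝ (‖uvec γ 1 y‖⁻¹ • uvec γ 1 y) w =
      fderiv ℝ (A.ell j i) (A.c j y, A.c i x) (dc A j y w, 0) := by
  rw [fderiv_ell A j i hy hx hne.symm (by rwa [dist_comm]), h.norm1, real_inner_smul_left]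
  have h1 := h.var1 j hy w
  have h2 : dist x y ≠ 0 := (dist_pos.2 hne).ne'
  have h4 : (fun q => dist x ((A.c j).symm q)) = fun q => dist ((A.c j).symm q) x := by
    funext q; exact dist_comm _ _
  rw [h4] at h1
  rw [← h1]
  field_simp

theorem dc_bijective {A : GoodAtlas S}
    (hA : ∀ i, ∃ z : S, A.c i = chartAt (EuclideanSpace ℝ (Fin 2)) z) (i : A.ι) {P : S}
    (hP : P ∈ (A.c i).source) : Function.Bijective (dc A i P) := by
  obtain ⟨z, hz⟩ := hA i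
  have h : (A.c i).MDifferentiable 𝓘(ℝ, EuclideanSpace ℝ (Fin 2)) 𝓘(ℝ, E2) := by
    rw [hz]; exact mdifferentiable_chart z
  exact h.mfderiv_bijective hP

/-- the coordinate expression of a geodesic is differentiable at `0` -/
theorem Geo.deriv0 {A : GoodAtlas S}
    (hA : ∀ i, ∃ z : S, A.c i = chartAt (EuclideanSpace ℝ (Fin 2)) z) {x y : S} {γ : ℝ → S}
    (h : Geo A x y γ) (i : A.ι) (hx : x ∈ (A.c i).source) :
    HasDerivWithinAt (fun t => A.c i (γ t)) (dc A i x (uvec γ 0 x)) (Icc 0 1) 0 := by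
  obtain ⟨rfl, h1, hd, m0, m1, n0, n1, v0, v1⟩ := h
  obtain ⟨z, hz⟩ := hA i
  have h : (A.c i).MDifferentiable 𝓘(ℝ, EuclideanSpace ℝ (Fin 2)) 𝓘(ℝ, E2) := by
    rw [hz]; exact mdifferentiable_chart z
  have a1 := (h.mdifferentiableAt hx).hasMFDerivAt
  have a2 := m0.hasMFDerivWithinAt
  have a3 := a1.comp_hasMFDerivWithinAt 0 a2
  have a4 := a3.hasFDerivWithinAt
  rw [hasDerivWithinAt_iff_hasFDerivWithinAt]
  have e : (ContinuousLinearMap.toSpanSingleton ℝ (dc A i (γ 0) (uvec γ 0 (γ 0))) : ℝ →L[ℝ] E2) =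
      (mfderiv 𝓘(ℝ, EuclideanSpace ℝ (Fin 2)) 𝓘(ℝ, E2) (A.c i) (γ 0)).comp
        (mfderivWithin 𝓘(ℝ, ℝ) 𝓘(ℝ, EuclideanSpace ℝ (Fin 2)) γ (Icc 0 1) 0) := by
    apply ContinuousLinearMap.ext_ring
    rw [ContinuousLinearMap.toSpanSingleton_apply, one_smul]
    rfl
  rw [e]
  exact a4

theorem Geo.deriv1 {A : GoodAtlas S}
    (hA : ∀ i, ∃ z : S, A.c i = chartAt (EuclideanSpace ℝ (Fin 2)) z) {x y : S} {γ : ℝ → S}
    (h : Geo A x y γ) (i : A.ι) (hy : y ∈ (A.c i).source) :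
    HasDerivWithinAt (fun t => A.c i (γ t)) (dc A i y (uvec γ 1 y)) (Icc 0 1) 1 := by
  obtain ⟨h0, rfl, hd, m0, m1, n0, n1, v0, v1⟩ := h
  obtain ⟨z, hz⟩ := hA i
  have h : (A.c i).MDifferentiable 𝓘(ℝ, EuclideanSpace ℝ (Fin 2)) 𝓘(ℝ, E2) := by
    rw [hz]; exact mdifferentiable_chart z
  have a1 := (h.mdifferentiableAt hy).hasMFDerivAt
  have a2 := m1.hasMFDerivWithinAt
  have a3 := a1.comp_hasMFDerivWithinAt 1 a2
  have a4 := a3.hasFDerivWithinAt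
  rw [hasDerivWithinAt_iff_hasFDerivWithinAt]
  have e : (ContinuousLinearMap.toSpanSingleton ℝ (dc A i (γ 1) (uvec γ 1 (γ 1))) : ℝ →L[ℝ] E2) =
      (mfderiv 𝓘(ℝ, EuclideanSpace ℝ (Fin 2)) 𝓘(ℝ, E2) (A.c i) (γ 1)).comp
        (mfderivWithin 𝓘(ℝ, ℝ) 𝓘(ℝ, EuclideanSpace ℝ (Fin 2)) γ (Icc 0 1) 1) := by
    apply ContinuousLinearMap.ext_ring
    rw [ContinuousLinearMap.toSpanSingleton_apply, one_smul]
    rfl
  rw [e]
  exact a4

end

end Pool.Agent.Helper67Nets
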