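import Pool.Agent.Helper67_Nets.Edge

/-!
Rays issuing from a vertex (MP_f059bd_gt).
-/

set_option autoImplicit false
set_option linter.unusedSectionVars false

open Set Filter Topology Metric Bundle
open scoped ContDiff Manifold
open Pool.Agent.Helper4Nets

namespace Pool.Agent.Helper67Nets

section

variable {S : Type} [MetricSpace S] [ChartedSpace (EuclideanSpace ℝ (Fin 2)) S]
    [IsManifold 𝓘(ℝ, EuclideanSpace ℝ (Fin 2)) ∞ S]
    [RiemannianBundle (fun x : S => TangentSpace 𝓘(ℝ, EuclideanSpace ℝ (Fin 2)) x)]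

theorem dc_smul (A : GoodAtlas S) (i : A.ι) (P : S) (r : ℝ)
    (w : TangentSpace 𝓘(ℝ, EuclideanSpace ℝ (Fin 2)) P) : dc A i P (r • w) = r • dc A i P w := by
  unfold dc
  exact map_smul (mfderiv 𝓘(ℝ, EuclideanSpace ℝ (Fin 2)) 𝓘(ℝ, E2) (A.c i) P) r w

/-- A unit speed ray from `P`, with velocity `V` and covector `φ`. -/
def Ray (A : GoodAtlas S) (i : A.ι) (P : S) (d : ℝ) (g : ℝ → S)
    (V : TangentSpace 𝓘(ℝ, EuclideanSpace ℝ (Fin 2)) P) (φ : E2 → ℝ) : Prop :=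
  0 < d ∧ (∀ s ∈ Icc (0 : ℝ) d, dist P (g s) = s) ∧
    HasDerivWithinAt (fun s => A.c i (g s)) (dc A i P V) (Icc 0 d) 0 ∧
    ∀ w, inner ℝ V w = - φ (dc A i P w)

theorem Geo.ray0 {A : GoodAtlas S}
    (hA : ∀ i, ∃ z : S, A.c i = chartAt (EuclideanSpace ℝ (Fin 2)) z) {x y : S} {γ : ℝ → S}
    (h : Geo A x y γ) (hne : x ≠ y)
    (hr : dist x y < A.r) (i j : A.ι) (hx : x ∈ (A.c i).source) (hy : y ∈ (A.c j).source) :
    Ray A i x (dist x y) (fun s => γ (s / dist x y)) (‖uvec γ 0 x‖⁻¹ • uvec γ 0 x)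
      (fun v => fderiv ℝ (A.ell i j) (A.c i x, A.c j y) (v, 0)) := by
  have hd : 0 < dist x y := dist_pos.2 hne
  have hmaps : ∀ s ∈ Icc (0 : ℝ) (dist x y), s / dist x y ∈ Icc (0 : ℝ) 1 := by
    intro s hs
    exact ⟨div_nonneg hs.1 hd.le, (div_le_one hd).2 hs.2⟩
  refine ⟨hd, ?_, ?_, fun w => h.unit0 hne hr i j hx hy w⟩
  · intro s hs
    have h1 := h.2.2.1 0 (by simp) (s / dist x y) (hmaps s hs)
    rw [h.1] at h1
    show dist x (γ (s / dist x y)) = s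
    rw [h1, zero_sub, abs_neg, abs_of_nonneg (hmaps s hs).1]
    field_simp
  · have h1 : HasDerivWithinAt (fun s : ℝ => s / dist x y) (1 / dist x y)
        (Icc 0 (dist x y)) 0 := ((hasDerivAt_id (0 : ℝ)).div_const _).hasDerivWithinAt
    have h2 := h.deriv0 hA i hx
    have e0 : (0 : ℝ) = 0 / dist x y := by simp
    have h3 : HasDerivWithinAt (fun t => A.c i (γ t)) (dc A i x (uvec γ 0 x)) (Icc 0 1)
      (0 / dist x y) := by rw [← e0]; exact h2
    have h4 := HasDerivWithinAt.scomp (0 : ℝ) h3 h1 hmaps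
    rw [dc_smul, h.norm0, inv_eq_one_div]
    exact h4

theorem Geo.ray1 {A : GoodAtlas S}
    (hA : ∀ i, ∃ z : S, A.c i = chartAt (EuclideanSpace ℝ (Fin 2)) z) {x y : S} {γ : ℝ → S}
    (h : Geo A x y γ) (hne : x ≠ y)
    (hr : dist x y < A.r) (i j : A.ι) (hx : x ∈ (A.c i).source) (hy : y ∈ (A.c j).source) :
    Ray A j y (dist x y) (fun s => γ (1 - s / dist x y)) (-(‖uvec γ 1 y‖⁻¹ • uvec γ 1 y))
      (fun v => fderiv ℝ (A.ell j i) (A.c j y, A.c i x) (v, 0)) := by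
  have hd : 0 < dist x y := dist_pos.2 hne
  have hmaps : ∀ s ∈ Icc (0 : ℝ) (dist x y), 1 - s / dist x y ∈ Icc (0 : ℝ) 1 := by
    intro s hs
    have h1 := (div_le_one hd).2 hs.2
    have h2 := div_nonneg hs.1 hd.le
    exact ⟨by linarith, by linarith⟩
  refine ⟨hd, ?_, ?_, fun w => ?_⟩
  · intro s hs
    have h1 := h.2.2.1 1 (by simp) (1 - s / dist x y) (hmaps s hs)
    rw [h.2.1] at h1
    show dist y (γ (1 - s / dist x y)) = s
    rw [h1, sub_sub_cancel, abs_of_nonneg (div_nonneg hs.1 hd.le)]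
    field_simp
  · have h1 : HasDerivWithinAt (fun s : ℝ => 1 - s / dist x y) (-(1 / dist x y))
        (Icc 0 (dist x y)) 0 :=
      (((hasDerivAt_id (0 : ℝ)).div_const (dist x y)).const_sub 1).hasDerivWithinAt
    have h2 := h.deriv1 hA j hy
    have e0 : (1 : ℝ) = 1 - 0 / dist x y := by simp
    have h3 : HasDerivWithinAt (fun t => A.c j (γ t)) (dc A j y (uvec γ 1 y)) (Icc 0 1)
      (1 - 0 / dist x y) := by rw [← e0]; exact h2
    have h4 := HasDerivWithinAt.scomp (0 : ℝ) h3 h1 hmaps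
    rw [← neg_smul, dc_smul, h.norm1, inv_eq_one_div]
    exact h4
  · rw [inner_neg_left, h.unit1 hne hr i j hx hy w]

theorem Ray.ne {A : GoodAtlas S}
    (hA : ∀ i, ∃ z : S, A.c i = chartAt (EuclideanSpace ℝ (Fin 2)) z) {i : A.ι} {P : S}
    (hP : P ∈ (A.c i).source) {d d' : ℝ} {g g' : ℝ → S}
    {V V' : TangentSpace 𝓘(ℝ, EuclideanSpace ℝ (Fin 2)) P} {φ φ' : E2 → ℝ}
    (h : Ray A i P d g V φ) (h' : Ray A i P d' g' V' φ') (hne : ∃ v, φ v ≠ φ' v) :
    ∀ᶠ s in 𝓝[>] (0 : ℝ), g s ≠ g' s := by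
  obtain ⟨hd, _, hder, hin⟩ := h
  obtain ⟨hd', _, hder', hin'⟩ := h'
  have hbij := dc_bijective hA i hP
  have hVV : V ≠ V' := by
    rintro rfl
    obtain ⟨v, hv⟩ := hne
    obtain ⟨w, rfl⟩ := hbij.2 v
    apply hv
    have := hin w
    rw [hin' w] at this
    linarith
  have hDD : dc A i P V - dc A i P V' ≠ 0 := sub_ne_zero.2 fun e => hVV (hbij.1 e)
  set e := min d d' with he
  have he0 : 0 < e := lt_min hd hd'
  have h1 : HasDerivWithinAt (fun s => A.c i (g s) - A.c i (g' s))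
      (dc A i P V - dc A i P V') (Icc 0 e) 0 :=
    (hder.mono (Icc_subset_Icc_right (min_le_left _ _))).sub
      (hder'.mono (Icc_subset_Icc_right (min_le_right _ _)))
  have h2 := h1.eventually_ne (c := 0) hDD
  have h3 : 𝓝[>] (0 : ℝ) ≤ 𝓝[Icc 0 e \ {0}] 0 := by
    apply nhdsWithin_le_of_mem
    have : Ioo (0 : ℝ) e ∈ 𝓝[>] (0 : ℝ) := Ioo_mem_nhdsGT he0
    filter_upwards [this] with s hs
    exact ⟨⟨hs.1.le, hs.2.le⟩, hs.1.ne'⟩
  filter_upwards [h3 h2] with s hs e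
  apply hs
  simp only [e, sub_self]

end

end Pool.Agent.Helper67Nets
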